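import Mathlib
import Pool.Agent.Results.MP_a51497_pr.MassGap

/-!
# Tree sizes of the two-dimensional arboreal gas (MP_a51497_pr)
-/

set_option autoImplicit false

open Pool.Agent.Results.MP_a51497_pr.MassGap

namespace Pool.Agent.Y944.AG

noncomputable section

/-- the graph of the edges in `F` -/
abbrev gr {L : ℕ} (F : Finset (Sym2 (Vtx L))) : SimpleGraph (Vtx L) :=
  SimpleGraph.fromEdgeSet (F : Set (Sym2 (Vtx L)))

open Classical in
/-- The probability of the event `p` under the arboreal gas on `Λ_L`. -/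
def pr (β : ℝ) (L : ℕ) [NeZero L] (p : Finset (Sym2 (Vtx L)) → Prop) : ℝ :=
  (∑ F ∈ (forests L).filter p, β ^ F.card) / Z β L

/-- The expected number of vertices of the tree of `i`. -/
def treeSize (β : ℝ) (L : ℕ) [NeZero L] (i : Vtx L) : ℝ :=
  (∑ F ∈ forests L, β ^ F.card *
    (Set.ncard {j : Vtx L | (SimpleGraph.fromEdgeSet (F : Set (Sym2 (Vtx L)))).Reachable i j} : ℝ)) /
      Z β L

/-- The decay rate `m(β)`: the supremum of all `c > 0` for which there is `C` with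
`P [i ↔ j] ≤ C exp (- c |i - j|)` for all `L`, `i`, `j`. -/
def rate (β : ℝ) : ℝ :=
  sSup {c : ℝ | 0 < c ∧ ∃ C : ℝ, ∀ (L : ℕ) [NeZero L] (i j : Vtx L),
    conn β L i j ≤ C * Real.exp (-(c * ((torus L).dist i j : ℝ)))}

theorem insert_forest {L : ℕ} [NeZero L] {F : Finset (Sym2 (Vtx L))} (hF : F ∈ forests L)
    {j k : Vtx L} (hjk : (torus L).Adj j k) (hn : ¬ (gr F).Reachable j k) [DecidableEq (Sym2 (Vtx L))] :
    insert s(j, k) F ∈ forests L ∧ s(j, k) ∉ F ∧ (gr (insert s(j, k) F)).Reachable j k ∧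
      gr F ≤ gr (insert s(j, k) F) := by
  classical
  rw [forests, Finset.mem_filter] at hF ⊢
  have hne : j ≠ k := hjk.ne
  have hnot : s(j, k) ∉ F := fun h => hn (SimpleGraph.Adj.reachable (by
    rw [SimpleGraph.fromEdgeSet_adj]; exact ⟨h, hne⟩))
  have hle : gr F ≤ gr (insert s(j, k) F) :=
    SimpleGraph.fromEdgeSet_mono (by rw [Finset.coe_insert]; exact Set.subset_insert _ _)
  have heq : gr (insert s(j, k) F) = gr F ⊔ SimpleGraph.edge j k := by
    unfold gr SimpleGraph.edge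
    rw [Finset.coe_insert, ← Set.union_singleton, SimpleGraph.fromEdgeSet_union]
  refine ⟨⟨Finset.mem_univ _, ?_, ?_⟩, hnot, ?_, hle⟩
  · intro e he
    rw [Finset.coe_insert] at he
    rcases he with rfl | he
    · exact hjk
    · exact hF.2.1 he
  · have := hF.2.2.sup_edge_of_not_reachable hn
    rw [← heq] at this
    exact this
  · refine SimpleGraph.Adj.reachable ?_
    rw [SimpleGraph.fromEdgeSet_adj]
    exact ⟨by rw [Finset.coe_insert]; exact Set.mem_insert _ _, hne⟩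

theorem Z_pos {β : ℝ} (hβ : 0 < β) (L : ℕ) [NeZero L] : 0 < Z β L := by
  classical
  unfold Z
  refine Finset.sum_pos (fun F _ => pow_pos hβ _) ⟨∅, ?_⟩
  rw [forests, Finset.mem_filter]
  refine ⟨Finset.mem_univ _, ?_, ?_⟩
  · rw [Finset.coe_empty]
    exact Set.empty_subset _
  · rw [Finset.coe_empty, SimpleGraph.fromEdgeSet_empty]
    exact SimpleGraph.isAcyclic_bot

theorem conn_self {β : ℝ} (hβ : 0 < β) (L : ℕ) [NeZero L] (i : Vtx L) : conn β L i i = 1 := by
  classical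
  unfold conn
  rw [Finset.filter_true_of_mem (fun F _ => SimpleGraph.Reachable.refl i)]
  exact div_self (Z_pos hβ L).ne'

theorem conn_comm (β : ℝ) (L : ℕ) [NeZero L] (i j : Vtx L) : conn β L i j = conn β L j i := by
  classical
  unfold conn
  congr 2
  ext F
  rw [Finset.mem_filter, Finset.mem_filter, SimpleGraph.reachable_comm]

theorem conn_step {β : ℝ} (hβ : 0 < β) {L : ℕ} [NeZero L] (i : Vtx L) {j k : Vtx L}
    (hjk : (torus L).Adj j k) : β * conn β L i j ≤ (1 + β) * conn β L i k := by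
  classical
  have hZ := Z_pos hβ L
  unfold conn
  rw [← mul_div_assoc, ← mul_div_assoc]
  refine div_le_div_of_nonneg_right ?_ hZ.le
  rw [← Finset.sum_filter_add_sum_filter_not ((forests L).filter
    (fun F : Finset (Sym2 (Vtx L)) => (gr F).Reachable i j)) (fun F => (gr F).Reachable i k),
    Finset.filter_filter, Finset.filter_filter, mul_add, add_mul, one_mul, add_comm]
  refine add_le_add ?_ ?_
  · rw [Finset.mul_sum]
    have h1 : ∀ F ∈ (forests L).filter (fun F : Finset (Sym2 (Vtx L)) =>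
        (gr F).Reachable i j ∧ ¬ (gr F).Reachable i k), ¬ (gr F).Reachable j k := by
      intro F hF h
      rw [Finset.mem_filter] at hF
      exact hF.2.2 (hF.2.1.trans h)
    have h2 : ∑ F ∈ (forests L).filter (fun F : Finset (Sym2 (Vtx L)) =>
        (gr F).Reachable i j ∧ ¬ (gr F).Reachable i k), β * β ^ F.card =
        ∑ F ∈ ((forests L).filter (fun F : Finset (Sym2 (Vtx L)) =>
        (gr F).Reachable i j ∧ ¬ (gr F).Reachable i k)).image (insert s(j, k)), β ^ F.card := by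
      rw [Finset.sum_image]
      · refine Finset.sum_congr rfl fun F hF => ?_
        have h3 := insert_forest (Finset.mem_filter.1 hF).1 hjk (h1 F hF)
        rw [Finset.card_insert_of_notMem h3.2.1, pow_succ, mul_comm]
      · intro F hF F' hF' h
        have h3 := (insert_forest (Finset.mem_filter.1 hF).1 hjk (h1 F hF)).2.1
        have h3' := (insert_forest (Finset.mem_filter.1 hF').1 hjk (h1 F' hF')).2.1
        have h4 := congrArg (fun G => Finset.erase G s(j, k)) h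
        simpa [Finset.erase_insert h3, Finset.erase_insert h3'] using h4
    rw [h2]
    refine Finset.sum_le_sum_of_subset_of_nonneg ?_ fun F _ _ => (pow_pos hβ _).le
    intro G hG
    rw [Finset.mem_image] at hG
    obtain ⟨F, hF, rfl⟩ := hG
    have h3 := insert_forest (Finset.mem_filter.1 hF).1 hjk (h1 F hF)
    rw [Finset.mem_filter]
    exact ⟨h3.1, ((Finset.mem_filter.1 hF).2.1.mono h3.2.2.2).trans h3.2.2.1⟩
  · refine mul_le_mul_of_nonneg_left ?_ hβ.le
    refine Finset.sum_le_sum_of_subset_of_nonneg ?_ fun F _ _ => (pow_pos hβ _).le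
    intro F hF
    rw [Finset.mem_filter] at hF ⊢
    exact ⟨hF.1, hF.2.2⟩

theorem conn_walk {β : ℝ} (hβ : 0 < β) {L : ℕ} [NeZero L] {i k : Vtx L}
    (p : (torus L).Walk i k) : (β / (1 + β)) ^ p.length ≤ conn β L k i := by
  induction p with
  | nil => rw [SimpleGraph.Walk.length_nil, pow_zero, conn_self hβ]
  | @cons i j k h p ih =>
    have h1 := conn_step hβ k h.symm
    have h0 : 0 < 1 + β := by linarith
    rw [SimpleGraph.Walk.length_cons, pow_succ]
    calc (β / (1 + β)) ^ p.length * (β / (1 + β)) ≤ conn β L k j * (β / (1 + β)) :=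
          mul_le_mul_of_nonneg_right ih (by positivity)
      _ = β * conn β L k j / (1 + β) := by ring
      _ ≤ conn β L k i := by
          rw [div_le_iff₀ h0]
          linarith

theorem walk1 {L : ℕ} (x : Vtx L) (a : ℕ) :
    ∃ p : (torus L).Walk x (x.1 + a, x.2), p.length ≤ a := by
  induction a with
  | zero =>
    have : x = (x.1 + ((0 : ℕ) : ZMod L), x.2) := by simp
    exact ⟨SimpleGraph.Walk.nil.copy rfl this, by simp⟩
  | succ a ih =>
    obtain ⟨p, hp⟩ := ih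
    have e1 : (x.1 + ((a + 1 : ℕ) : ZMod L), x.2) = (x.1 + a + 1, x.2) := by
      push_cast
      rw [add_assoc]
    rw [e1]
    by_cases h : (x.1 + (a : ZMod L), x.2) = (x.1 + a + 1, x.2)
    · exact ⟨p.copy rfl h, by rw [SimpleGraph.Walk.length_copy]; omega⟩
    · have hadj : (torus L).Adj (x.1 + (a : ZMod L), x.2) (x.1 + a + 1, x.2) :=
        ⟨h, Or.inr ⟨rfl, Or.inr rfl⟩⟩
      exact ⟨p.concat hadj, by rw [SimpleGraph.Walk.length_concat]; omega⟩

theorem walk2 {L : ℕ} (x : Vtx L) (a b : ℕ) :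
    ∃ p : (torus L).Walk x (x.1 + a, x.2 + b), p.length ≤ a + b := by
  induction b with
  | zero =>
    obtain ⟨p, hp⟩ := walk1 x a
    have : (x.1 + (a : ZMod L), x.2) = (x.1 + (a : ZMod L), x.2 + ((0 : ℕ) : ZMod L)) := by simp
    exact ⟨p.copy rfl this, by rw [SimpleGraph.Walk.length_copy]; omega⟩
  | succ b ih =>
    obtain ⟨p, hp⟩ := ih
    have e1 : (x.1 + (a : ZMod L), x.2 + ((b + 1 : ℕ) : ZMod L)) = (x.1 + a, x.2 + b + 1) := by
      push_cast
      rw [add_assoc]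
    rw [e1]
    by_cases h : (x.1 + (a : ZMod L), x.2 + (b : ZMod L)) = (x.1 + a, x.2 + b + 1)
    · exact ⟨p.copy rfl h, by rw [SimpleGraph.Walk.length_copy]; omega⟩
    · have hadj : (torus L).Adj (x.1 + (a : ZMod L), x.2 + (b : ZMod L)) (x.1 + a, x.2 + b + 1) :=
        ⟨h, Or.inl ⟨rfl, Or.inr rfl⟩⟩
      exact ⟨p.concat hadj, by rw [SimpleGraph.Walk.length_concat]; omega⟩

theorem torus_reach {L : ℕ} [NeZero L] (i j : Vtx L) : (torus L).Reachable i j := by
  obtain ⟨p, -⟩ := walk2 i (j.1 - i.1).val (j.2 - i.2).val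
  have e : (i.1 + (((j.1 - i.1).val : ℕ) : ZMod L), i.2 + (((j.2 - i.2).val : ℕ) : ZMod L)) = j := by
    rw [ZMod.natCast_zmod_val, ZMod.natCast_zmod_val]
    exact Prod.ext (by simp) (by simp)
  rw [e] at p
  exact ⟨p⟩

theorem conn_ge {β : ℝ} (hβ : 0 < β) {L : ℕ} [NeZero L] (i j : Vtx L) :
    (β / (1 + β)) ^ ((torus L).dist i j) ≤ conn β L i j := by
  obtain ⟨p, hp⟩ := (torus_reach i j).exists_walk_length_eq_dist
  rw [← hp, conn_comm]
  exact conn_walk hβ p

/-! ### distances -/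

/-- the size of a vertex -/
def g {L : ℕ} (x : Vtx L) : ℕ := x.1.valMinAbs.natAbs + x.2.valMinAbs.natAbs

theorem g_add {L : ℕ} (x y : Vtx L) : g (x + y) ≤ g x + g y := by
  unfold g
  have h1 := (ZMod.natAbs_valMinAbs_add_le x.1 y.1).trans (Int.natAbs_add_le _ _)
  have h2 := (ZMod.natAbs_valMinAbs_add_le x.2 y.2).trans (Int.natAbs_add_le _ _)
  show (x.1 + y.1).valMinAbs.natAbs + (x.2 + y.2).valMinAbs.natAbs ≤ _
  omega

theorem one_le {L : ℕ} [NeZero L] : (1 : ZMod L).valMinAbs.natAbs ≤ 1 := by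
  rw [ZMod.valMinAbs_natAbs_eq_min]
  refine (min_le_left _ _).trans ?_
  rw [ZMod.val_one_eq_one_mod]
  exact Nat.mod_le _ _

theorem g_adj {L : ℕ} [NeZero L] {x y : Vtx L} (h : (torus L).Adj x y) : g (y - x) ≤ 1 := by
  have h1 := one_le (L := L)
  have h2 : (-1 : ZMod L).valMinAbs.natAbs ≤ 1 := by rw [ZMod.natAbs_valMinAbs_neg]; exact h1
  have h0 : (0 : ZMod L).valMinAbs.natAbs = 0 := by rw [ZMod.valMinAbs_zero]; rfl
  show (y.1 - x.1).valMinAbs.natAbs + (y.2 - x.2).valMinAbs.natAbs ≤ 1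
  rcases h.2 with ⟨e, h3⟩ | ⟨e, h3⟩
  · rw [e, sub_self, h0, zero_add]
    rcases h3 with h3 | h3
    · rw [h3, sub_add_cancel_left]; exact h2
    · rw [h3, add_sub_cancel_left]; exact h1
  · rw [e, sub_self, h0, add_zero]
    rcases h3 with h3 | h3
    · rw [h3, sub_add_cancel_left]; exact h2
    · rw [h3, add_sub_cancel_left]; exact h1

theorem g_walk {L : ℕ} [NeZero L] {i j : Vtx L} (p : (torus L).Walk i j) :
    g (j - i) ≤ p.length := by
  induction p with
  | nil =>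
    rw [sub_self]
    simp [g]
  | @cons i k j h p ih =>
    have h1 := g_adj h
    have h2 := g_add (j - k) (k - i)
    rw [sub_add_sub_cancel] at h2
    rw [SimpleGraph.Walk.length_cons]
    omega

theorem g_le_dist {L : ℕ} [NeZero L] (i j : Vtx L) : g (j - i) ≤ (torus L).dist i j := by
  obtain ⟨p, hp⟩ := (torus_reach i j).exists_walk_length_eq_dist
  rw [← hp]
  exact g_walk p

theorem fiber_le {L : ℕ} [NeZero L] (k : ℕ) :
    (Finset.univ.filter fun a : ZMod L => a.valMinAbs.natAbs = k).card ≤ 2 := by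
  classical
  have h : ((Finset.univ.filter fun a : ZMod L => a.valMinAbs.natAbs = k).image
      ZMod.valMinAbs) ⊆ {(k : ℤ), -(k : ℤ)} := by
    intro z hz
    rw [Finset.mem_image] at hz
    obtain ⟨a, ha, rfl⟩ := hz
    have h1 := (Finset.mem_filter.1 ha).2
    rw [Finset.mem_insert, Finset.mem_singleton]
    omega
  rw [← Finset.card_image_of_injective _ ZMod.injective_valMinAbs]
  exact (Finset.card_le_card h).trans Finset.card_le_two

theorem sum_one {L : ℕ} [NeZero L] {ρ : ℝ} (h0 : 0 < ρ) (h1 : ρ ≤ 1) :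
    ∑ a : ZMod L, Real.exp (-(ρ * (a.valMinAbs.natAbs : ℝ))) ≤ 4 / ρ := by
  classical
  have hmaps : ∀ a ∈ (Finset.univ : Finset (ZMod L)), a.valMinAbs.natAbs ∈ Finset.range (L + 1) := by
    intro a _
    rw [Finset.mem_range]
    have := ZMod.natAbs_valMinAbs_le a
    omega
  rw [← Finset.sum_fiberwise_of_maps_to hmaps]
  have h2 : ∀ k ∈ Finset.range (L + 1),
      ∑ a ∈ Finset.univ.filter (fun a : ZMod L => a.valMinAbs.natAbs = k),
        Real.exp (-(ρ * (a.valMinAbs.natAbs : ℝ))) ≤ 2 * Real.exp (-ρ) ^ k := by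
    intro k _
    have h3 : ∀ a ∈ Finset.univ.filter (fun a : ZMod L => a.valMinAbs.natAbs = k),
        Real.exp (-(ρ * (a.valMinAbs.natAbs : ℝ))) = Real.exp (-ρ) ^ k := by
      intro a ha
      rw [(Finset.mem_filter.1 ha).2, ← Real.exp_nat_mul]
      congr 1
      ring
    rw [Finset.sum_congr rfl h3, Finset.sum_const, nsmul_eq_mul]
    refine mul_le_mul_of_nonneg_right ?_ (by positivity)
    exact_mod_cast fiber_le k
  refine (Finset.sum_le_sum h2).trans ?_
  rw [← Finset.mul_sum]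
  have hr0 : 0 ≤ Real.exp (-ρ) := (Real.exp_pos _).le
  have hr1 : Real.exp (-ρ) < 1 := by rw [Real.exp_lt_one_iff]; linarith
  have h4 : ∑ k ∈ Finset.range (L + 1), Real.exp (-ρ) ^ k ≤ (1 - Real.exp (-ρ))⁻¹ := by
    rw [← tsum_geometric_of_lt_one hr0 hr1]
    exact (summable_geometric_of_lt_one hr0 hr1).sum_le_tsum _ fun _ _ => by positivity
  have h5 : ρ / 2 ≤ 1 - Real.exp (-ρ) := by
    have h6 : Real.exp (-ρ) ≤ 1 / (1 + ρ) := by
      rw [Real.exp_neg, ← one_div]
      exact one_div_le_one_div_of_le (by linarith) (by linarith [Real.add_one_le_exp ρ])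
    have h7 : 1 / (1 + ρ) ≤ 1 - ρ / 2 := by
      rw [div_le_iff₀ (by linarith)]
      nlinarith
    linarith
  have h8 : (1 - Real.exp (-ρ))⁻¹ ≤ 2 / ρ := by
    rw [inv_le_comm₀ (by linarith) (by positivity), inv_div]
    exact h5
  calc 2 * ∑ k ∈ Finset.range (L + 1), Real.exp (-ρ) ^ k ≤ 2 * (2 / ρ) := by linarith
    _ = 4 / ρ := by ring

theorem sum_two {L : ℕ} [NeZero L] {ρ : ℝ} (h0 : 0 < ρ) (h1 : ρ ≤ 1) (i : Vtx L) :
    ∑ j : Vtx L, Real.exp (-(ρ * (g (j - i) : ℝ))) ≤ 16 / ρ ^ 2 := by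
  have e1 : ∑ j : Vtx L, Real.exp (-(ρ * (g (j - i) : ℝ))) =
      ∑ x : Vtx L, Real.exp (-(ρ * (g x : ℝ))) :=
    Fintype.sum_equiv (Equiv.subRight i) _ _ fun x => rfl
  have e2 : ∑ x : Vtx L, Real.exp (-(ρ * (g x : ℝ))) =
      (∑ a : ZMod L, Real.exp (-(ρ * (a.valMinAbs.natAbs : ℝ)))) *
        ∑ a : ZMod L, Real.exp (-(ρ * (a.valMinAbs.natAbs : ℝ))) := by
    rw [Fintype.sum_prod_type, Finset.sum_mul_sum]
    refine Finset.sum_congr rfl fun a _ => Finset.sum_congr rfl fun b _ => ?_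
    rw [← Real.exp_add]
    congr 1
    unfold g
    push_cast
    ring
  rw [e1, e2]
  have h2 := sum_one (L := L) h0 h1
  have h3 : 0 ≤ ∑ a : ZMod L, Real.exp (-(ρ * (a.valMinAbs.natAbs : ℝ))) :=
    Finset.sum_nonneg fun _ _ => (Real.exp_pos _).le
  calc _ ≤ (4 / ρ) * (4 / ρ) := mul_le_mul h2 h2 h3 (by positivity)
    _ = 16 / ρ ^ 2 := by
        field_simp
        norm_num

theorem box_le {L : ℕ} [NeZero L] (t : ℕ) (i : Vtx L) :
    Set.ncard {j : Vtx L | g (j - i) ≤ t} ≤ (2 * t + 1) ^ 2 := by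
  classical
  have h : (fun j : Vtx L => ((j - i).1.valMinAbs, (j - i).2.valMinAbs)) '' {j : Vtx L | g (j - i) ≤ t} ⊆
      ((Finset.Icc (-(t : ℤ)) t ×ˢ Finset.Icc (-(t : ℤ)) t : Finset (ℤ × ℤ)) : Set (ℤ × ℤ)) := by
    rintro _ ⟨j, hj, rfl⟩
    have hj' : (j - i).1.valMinAbs.natAbs + (j - i).2.valMinAbs.natAbs ≤ t := hj
    rw [Finset.mem_coe, Finset.mem_product, Finset.mem_Icc, Finset.mem_Icc]
    dsimp only
    refine ⟨⟨?_, ?_⟩, ⟨?_, ?_⟩⟩ <;> omega
  have hinj : Function.Injective (fun j : Vtx L => ((j - i).1.valMinAbs, (j - i).2.valMinAbs)) := by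
    intro a b hab
    rw [Prod.mk.injEq, ZMod.valMinAbs_inj, ZMod.valMinAbs_inj] at hab
    exact sub_left_injective (Prod.ext hab.1 hab.2)
  rw [← Set.ncard_image_of_injective _ hinj]
  refine (Set.ncard_le_ncard h (Finset.finite_toSet _)).trans ?_
  rw [Set.ncard_coe_finset, Finset.card_product, Int.card_Icc]
  have : ((t : ℤ) + 1 - -(t : ℤ)).toNat = 2 * t + 1 := by omega
  rw [this, sq]

/-! ### Consequences -/

theorem treeSize_eq (β : ℝ) (L : ℕ) [NeZero L] (i : Vtx L) :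
    treeSize β L i = ∑ j : Vtx L, conn β L i j := by
  classical
  unfold treeSize conn
  rw [← Finset.sum_div]
  congr 1
  have h1 : ∀ j : Vtx L, ∑ F ∈ (forests L).filter (fun F : Finset (Sym2 (Vtx L)) =>
      (gr F).Reachable i j), β ^ F.card =
      ∑ F ∈ forests L, if (gr F).Reachable i j then β ^ F.card else 0 := fun j =>
    Finset.sum_filter _ _
  have h2 : ∑ j : Vtx L, ∑ F ∈ (forests L).filter (fun F : Finset (Sym2 (Vtx L)) =>
      (gr F).Reachable i j), β ^ F.card =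
      ∑ j : Vtx L, ∑ F ∈ forests L, if (gr F).Reachable i j then β ^ F.card else 0 :=
    Finset.sum_congr rfl fun j _ => h1 j
  refine Eq.trans ?_ h2.symm
  rw [Finset.sum_comm]
  refine Finset.sum_congr rfl fun F _ => ?_
  rw [← Finset.sum_filter, Finset.sum_const, nsmul_eq_mul, mul_comm]
  congr 2
  rw [← Set.ncard_coe_finset]
  congr 1
  ext j
  simp

theorem pr_tree_le {β : ℝ} (hβ : 0 < β) {L : ℕ} [NeZero L] {c : ℝ} (t : ℕ)
    (hc : ∀ i j : Vtx L, t < (torus L).dist i j → conn β L i j ≤ c) (hc0 : 0 ≤ c) :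
    pr β L (fun F => ∃ i, (2 * t + 1) ^ 2 < Set.ncard {j : Vtx L |
      (SimpleGraph.fromEdgeSet (F : Set (Sym2 (Vtx L)))).Reachable i j}) ≤ (L : ℝ) ^ 4 * c := by
  classical
  have hZ := Z_pos hβ L
  set S : Finset (Vtx L × Vtx L) := Finset.univ.filter fun x => t < (torus L).dist x.1 x.2 with hS
  have key : ∀ F : Finset (Sym2 (Vtx L)), (∃ i, (2 * t + 1) ^ 2 < Set.ncard {j : Vtx L |
      (gr F).Reachable i j}) → ∃ x ∈ S, (gr F).Reachable x.1 x.2 := by
    rintro F ⟨i, hi⟩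
    by_contra hcon
    push Not at hcon
    have hsub : {j : Vtx L | (gr F).Reachable i j} ⊆ {j : Vtx L | g (j - i) ≤ t} := by
      intro j hj
      by_contra hj'
      have hj'' : t < g (j - i) := not_le.1 hj'
      refine hcon (i, j) ?_ hj
      rw [hS, Finset.mem_filter]
      exact ⟨Finset.mem_univ _, hj''.trans_le (g_le_dist i j)⟩
    have h1 := (Set.ncard_le_ncard hsub (Set.toFinite _)).trans (box_le t i)
    omega
  have h1 : ∑ F ∈ (forests L).filter (fun F : Finset (Sym2 (Vtx L)) => ∃ i,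
      (2 * t + 1) ^ 2 < Set.ncard {j : Vtx L |
        (SimpleGraph.fromEdgeSet (F : Set (Sym2 (Vtx L)))).Reachable i j}), β ^ F.card ≤
      ∑ F ∈ forests L, ∑ x ∈ S, if (gr F).Reachable x.1 x.2 then β ^ F.card else 0 := by
    rw [Finset.sum_filter]
    refine Finset.sum_le_sum fun F _ => ?_
    have hnn : ∀ x ∈ S, (0 : ℝ) ≤ if (gr F).Reachable x.1 x.2 then β ^ F.card else 0 := by
      intro x _
      split_ifs
      · exact (pow_pos hβ _).le
      · exact le_rfl
    split_ifs with h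
    · obtain ⟨x, hx, hx'⟩ := key F h
      refine le_trans ?_ (Finset.single_le_sum hnn hx)
      rw [if_pos hx']
    · exact Finset.sum_nonneg hnn
  rw [Finset.sum_comm] at h1
  unfold pr
  rw [div_le_iff₀ hZ]
  refine (le_of_eq ?_).trans (h1.trans ?_)
  · congr
  have h2 : ∀ x ∈ S, (∑ F ∈ forests L, if (gr F).Reachable x.1 x.2 then β ^ F.card else 0) ≤
      c * Z β L := by
    intro x hx
    rw [← Finset.sum_filter]
    have h3 := hc x.1 x.2 (Finset.mem_filter.1 hx).2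
    unfold conn at h3
    rw [div_le_iff₀ hZ] at h3
    exact h3
  refine (Finset.sum_le_sum h2).trans ?_
  rw [Finset.sum_const, nsmul_eq_mul, mul_assoc]
  refine mul_le_mul_of_nonneg_right ?_ (mul_nonneg hc0 hZ.le)
  have h4 : S.card ≤ L ^ 4 := by
    refine (Finset.card_le_univ S).trans ?_
    rw [Fintype.card_prod, Fintype.card_prod, ZMod.card]
    exact le_of_eq (by ring)
  exact_mod_cast h4

theorem treeSize_le {β : ℝ} {L : ℕ} [NeZero L] {ρ : ℝ} (h0 : 0 < ρ) (h1 : ρ ≤ 1)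
    (hc : ∀ i j : Vtx L, conn β L i j ≤ 2 * Real.exp (-(ρ * ((torus L).dist i j : ℝ))))
    (i : Vtx L) : treeSize β L i ≤ 32 / ρ ^ 2 := by
  rw [treeSize_eq]
  have h2 : ∀ j : Vtx L, conn β L i j ≤ 2 * Real.exp (-(ρ * (g (j - i) : ℝ))) := by
    intro j
    refine (hc i j).trans (mul_le_mul_of_nonneg_left (Real.exp_le_exp.2 (neg_le_neg ?_)) (by norm_num))
    refine mul_le_mul_of_nonneg_left ?_ h0.le
    exact_mod_cast g_le_dist i j
  calc ∑ j : Vtx L, conn β L i j ≤ ∑ j : Vtx L, 2 * Real.exp (-(ρ * (g (j - i) : ℝ))) :=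
        Finset.sum_le_sum fun j _ => h2 j
    _ = 2 * ∑ j : Vtx L, Real.exp (-(ρ * (g (j - i) : ℝ))) := by rw [Finset.mul_sum]
    _ ≤ 2 * (16 / ρ ^ 2) := mul_le_mul_of_nonneg_left (sum_two h0 h1 i) (by norm_num)
    _ = 32 / ρ ^ 2 := by ring

theorem ratio_pow_ge {β : ℝ} (hβ : 0 < β) (n : ℕ) :
    Real.exp (-(n / β)) ≤ (β / (1 + β)) ^ n := by
  have h1 : Real.exp (-(1 / β)) ≤ β / (1 + β) := by
    have h2 : β / (1 + β) = 1 / (1 / β + 1) := by field_simp
    rw [h2, Real.exp_neg, ← one_div]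
    exact one_div_le_one_div_of_le (by positivity) (Real.add_one_le_exp _)
  calc Real.exp (-(n / β)) = Real.exp (-(1 / β)) ^ n := by
        rw [← Real.exp_nat_mul]
        congr 1
        ring
    _ ≤ _ := pow_le_pow_left₀ (Real.exp_pos _).le h1 n

theorem conn_nonneg {β : ℝ} (hβ : 0 < β) {L : ℕ} [NeZero L] (i j : Vtx L) : 0 ≤ conn β L i j :=
  le_trans (by positivity) (conn_ge hβ i j)

theorem treeSize_ge {β : ℝ} (hβ : 0 < β) {L : ℕ} [NeZero L] (hL : β < L) (i : Vtx L) :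
    Real.exp (-2) * β ^ 2 ≤ treeSize β L i := by
  classical
  set n : ℕ := ⌊β⌋₊ with hn
  have hn1 : (n : ℝ) ≤ β := Nat.floor_le hβ.le
  have hn2 : β < n + 1 := Nat.lt_floor_add_one β
  have hnL : n < L := by
    have : (n : ℝ) < L := hn1.trans_lt hL
    exact_mod_cast this
  set S : Finset (ℕ × ℕ) := Finset.range (n + 1) ×ˢ Finset.range (n + 1) with hS
  set f : ℕ × ℕ → Vtx L := fun p => (i.1 + p.1, i.2 + p.2) with hf
  have hinj : Set.InjOn f S := by
    rintro ⟨a, b⟩ hab ⟨c, d⟩ hcd h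
    rw [hS, Finset.mem_coe, Finset.mem_product, Finset.mem_range, Finset.mem_range] at hab hcd
    dsimp only at hab hcd
    rw [hf] at h
    simp only [Prod.mk.injEq, add_right_inj] at h
    obtain ⟨h1, h2⟩ := h
    rw [ZMod.natCast_eq_natCast_iff', Nat.mod_eq_of_lt (by omega), Nat.mod_eq_of_lt (by omega)] at h1 h2
    rw [h1, h2]
  rw [treeSize_eq]
  have h3 : ∀ p ∈ S, Real.exp (-2) ≤ conn β L i (f p) := by
    rintro ⟨a, b⟩ hab
    rw [hS, Finset.mem_product, Finset.mem_range, Finset.mem_range] at hab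
    dsimp only at hab
    obtain ⟨p, hp⟩ := walk2 i a b
    have h4 := conn_walk hβ p
    rw [conn_comm] at h4
    refine le_trans ?_ h4
    refine le_trans (Real.exp_le_exp.2 ?_) (ratio_pow_ge hβ p.length)
    have h5 : (p.length : ℝ) ≤ 2 * β := by
      have h6 : (p.length : ℝ) ≤ ((a + b : ℕ) : ℝ) := by exact_mod_cast hp
      have h7 : ((a + b : ℕ) : ℝ) ≤ ((2 * n : ℕ) : ℝ) := by
        have : a + b ≤ 2 * n := by omega
        exact_mod_cast this
      push_cast at h6 h7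
      linarith
    have h8 : (p.length : ℝ) / β ≤ 2 := by
      rw [div_le_iff₀ hβ]
      exact h5
    linarith
  calc Real.exp (-2) * β ^ 2 ≤ Real.exp (-2) * ((n : ℝ) + 1) ^ 2 := by
        refine mul_le_mul_of_nonneg_left ?_ (Real.exp_pos _).le
        exact pow_le_pow_left₀ hβ.le hn2.le 2
    _ = ∑ p ∈ S, Real.exp (-2) := by
        rw [Finset.sum_const, nsmul_eq_mul, hS, Finset.card_product, Finset.card_range]
        push_cast
        ring
    _ ≤ ∑ p ∈ S, conn β L i (f p) := Finset.sum_le_sum h3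
    _ = ∑ j ∈ S.image f, conn β L i j := (Finset.sum_image hinj).symm
    _ ≤ ∑ j : Vtx L, conn β L i j :=
        Finset.sum_le_sum_of_subset_of_nonneg (Finset.subset_univ _) fun j _ _ => conn_nonneg hβ i j

theorem rate_mem_le {β : ℝ} (hβ : 0 < β) {c : ℝ}
    (hc : 0 < c ∧ ∃ C : ℝ, ∀ (L : ℕ) [NeZero L] (i j : Vtx L),
      conn β L i j ≤ C * Real.exp (-(c * ((torus L).dist i j : ℝ)))) : c ≤ Real.log (1 + 1 / β) := by
  obtain ⟨hc0, C, hC⟩ := hc
  by_contra hcon
  rw [not_le] at hcon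
  set lam := Real.log (1 + 1 / β) with hlam
  have hC1 : 1 ≤ C := by
    have h := hC 1 (0 : Vtx 1) 0
    rw [conn_self hβ, SimpleGraph.dist_self] at h
    simpa using h
  have h1 : ∀ n : ℕ, Real.exp ((c - lam) * n) ≤ C := by
    intro n
    have : NeZero (2 * n + 2) := ⟨by omega⟩
    obtain ⟨p, hp⟩ := walk1 (L := 2 * n + 2) 0 n
    have h2 := conn_walk hβ p
    rw [conn_comm] at h2
    have h3 := hC (2 * n + 2) 0 ((0 : Vtx (2 * n + 2)).1 + (n : ZMod (2 * n + 2)), (0 : Vtx (2 * n + 2)).2)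
    have h4 := g_le_dist (0 : Vtx (2 * n + 2)) ((0 : Vtx (2 * n + 2)).1 + (n : ZMod (2 * n + 2)), (0 : Vtx (2 * n + 2)).2)
    have h5 : g (((0 : Vtx (2 * n + 2)).1 + (n : ZMod (2 * n + 2)), (0 : Vtx (2 * n + 2)).2) -
        (0 : Vtx (2 * n + 2))) = n := by
      rw [sub_zero]
      show ((0 : ZMod (2 * n + 2)) + (n : ZMod (2 * n + 2))).valMinAbs.natAbs +
        (0 : ZMod (2 * n + 2)).valMinAbs.natAbs = n
      rw [zero_add, ZMod.valMinAbs_zero, ZMod.valMinAbs_natCast_of_le_half (by omega)]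
      simp
    rw [h5] at h4
    have h6 : (β / (1 + β)) ^ n ≤ (β / (1 + β)) ^ p.length :=
      pow_le_pow_of_le_one (by positivity) (by rw [div_le_one (by positivity)]; linarith) hp
    have h7 : Real.exp (-(lam * n)) = (β / (1 + β)) ^ n := by
      have h8 : β / (1 + β) = Real.exp (-lam) := by
        rw [hlam, Real.exp_neg, Real.exp_log (by positivity)]
        field_simp
        ring
      rw [h8, ← Real.exp_nat_mul]
      congr 1
      ring
    have h9 : Real.exp (-(c * ((torus (2 * n + 2)).dist (0 : Vtx (2 * n + 2))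
        ((0 : Vtx (2 * n + 2)).1 + (n : ZMod (2 * n + 2)), (0 : Vtx (2 * n + 2)).2) : ℝ))) ≤
        Real.exp (-(c * n)) := by
      refine Real.exp_le_exp.2 (neg_le_neg (mul_le_mul_of_nonneg_left ?_ hc0.le))
      exact_mod_cast h4
    have h10 : Real.exp (-(lam * n)) ≤ C * Real.exp (-(c * n)) := by
      rw [h7]
      exact (h6.trans h2).trans (h3.trans (mul_le_mul_of_nonneg_left h9 (by linarith)))
    calc Real.exp ((c - lam) * n) = Real.exp (-(lam * n)) * Real.exp (c * n) := by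
          rw [← Real.exp_add]
          congr 1
          ring
      _ ≤ C * Real.exp (-(c * n)) * Real.exp (c * n) :=
          mul_le_mul_of_nonneg_right h10 (Real.exp_pos _).le
      _ = C := by
          rw [mul_assoc, ← Real.exp_add, neg_add_cancel, Real.exp_zero, mul_one]
  obtain ⟨n, hn⟩ := exists_nat_gt (C / (c - lam))
  rw [div_lt_iff₀ (by linarith)] at hn
  have h2 := h1 n
  have h3 := Real.add_one_le_exp ((c - lam) * n)
  linarith

/-- Tree sizes and decay rate of the two-dimensional arboreal gas. -/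
theorem main_of (hmg : ∃ A : ℝ, 0 < A ∧ ∀ β : ℝ, 0 < β → ∀ (L : ℕ) [NeZero L] (i j : Vtx L),
    conn β L i j ≤
      2 * Real.exp (-(Real.exp (-(A * (1 + β ^ 2))) * ((torus L).dist i j : ℝ)))) :
    ∃ A : ℝ, 0 < A ∧ ∀ β : ℝ, 0 < β →
      (Real.exp (-(A * (1 + β ^ 2))) ≤ rate β ∧ rate β ≤ Real.log (1 + 1 / β)) ∧
      (∀ (L : ℕ) [NeZero L] (i : Vtx L), treeSize β L i ≤ Real.exp (A * (1 + β ^ 2))) ∧
      (∀ (L : ℕ) [NeZero L] (i : Vtx L), β < L → Real.exp (-2) * β ^ 2 ≤ treeSize β L i) ∧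
      (∀ (L : ℕ) [NeZero L] (i j : Vtx L),
        (β / (1 + β)) ^ ((torus L).dist i j) ≤ conn β L i j ∧
        conn β L i j ≤
          2 * Real.exp (-(Real.exp (-(A * (1 + β ^ 2))) * ((torus L).dist i j : ℝ)))) ∧
      (∀ (L : ℕ) [NeZero L] (t : ℕ),
        pr β L (fun F => ∃ i, (2 * t + 1) ^ 2 < Set.ncard {j : Vtx L |
          (SimpleGraph.fromEdgeSet (F : Set (Sym2 (Vtx L)))).Reachable i j}) ≤
        2 * (L : ℝ) ^ 4 * Real.exp (-(Real.exp (-(A * (1 + β ^ 2))) * t))) := by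
  obtain ⟨A, hA, h⟩ := hmg
  refine ⟨2 * A + 4, by linarith, ?_⟩
  intro β hβ
  set ρ := Real.exp (-(A * (1 + β ^ 2))) with hρ
  set σ := Real.exp (-((2 * A + 4) * (1 + β ^ 2))) with hσ
  have hb : 0 ≤ β ^ 2 := sq_nonneg β
  have hρ0 : 0 < ρ := Real.exp_pos _
  have hρ1 : ρ ≤ 1 := by
    rw [hρ, Real.exp_le_one_iff]
    have : 0 ≤ A * (1 + β ^ 2) := by positivity
    linarith
  have hσρ : σ ≤ ρ := by
    rw [hσ, hρ]
    refine Real.exp_le_exp.2 ?_
    nlinarith
  have hσ0 : 0 < σ := Real.exp_pos _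
  have hup : ∀ (L : ℕ) [NeZero L] (i j : Vtx L),
      conn β L i j ≤ 2 * Real.exp (-(σ * ((torus L).dist i j : ℝ))) := by
    intro L _ i j
    refine (h β hβ L i j).trans (mul_le_mul_of_nonneg_left (Real.exp_le_exp.2 (neg_le_neg ?_))
      (by norm_num))
    exact mul_le_mul_of_nonneg_right hσρ (Nat.cast_nonneg _)
  refine ⟨⟨?_, ?_⟩, ?_, ?_, ?_, ?_⟩
  · refine le_csSup ⟨Real.log (1 + 1 / β), fun c hc => rate_mem_le hβ hc⟩ ?_
    exact ⟨hσ0, 2, fun L _ i j => hup L i j⟩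
  · refine csSup_le ⟨σ, hσ0, 2, fun L _ i j => hup L i j⟩ fun c hc => rate_mem_le hβ hc
  · intro L _ i
    refine (treeSize_le hρ0 hρ1 (fun i j => h β hβ L i j) i).trans ?_
    have e1 : 32 / ρ ^ 2 = 32 * Real.exp (2 * A * (1 + β ^ 2)) := by
      rw [hρ, ← Real.exp_nat_mul, div_eq_mul_inv, ← Real.exp_neg]
      congr 2
      push_cast
      ring
    have e2 : (32 : ℝ) ≤ Real.exp (4 * (1 + β ^ 2)) := by
      have h1 : (2.7 : ℝ) ^ 4 ≤ Real.exp 1 ^ 4 :=
        pow_le_pow_left₀ (by norm_num) (by linarith [Real.exp_one_gt_d9]) 4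
      rw [← Real.exp_nat_mul] at h1
      norm_num at h1
      have h2 : Real.exp 4 ≤ Real.exp (4 * (1 + β ^ 2)) := Real.exp_le_exp.2 (by linarith)
      linarith
    rw [e1]
    calc 32 * Real.exp (2 * A * (1 + β ^ 2))
        ≤ Real.exp (4 * (1 + β ^ 2)) * Real.exp (2 * A * (1 + β ^ 2)) :=
          mul_le_mul_of_nonneg_right e2 (Real.exp_pos _).le
      _ = Real.exp ((2 * A + 4) * (1 + β ^ 2)) := by
          rw [← Real.exp_add]
          congr 1
          ring
  · intro L _ i hL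
    exact treeSize_ge hβ hL i
  · intro L _ i j
    exact ⟨conn_ge hβ i j, hup L i j⟩
  · intro L _ t
    refine (pr_tree_le hβ t (c := 2 * Real.exp (-(σ * t))) ?_ (by positivity)).trans (le_of_eq ?_)
    · intro i j hij
      refine (hup L i j).trans (mul_le_mul_of_nonneg_left (Real.exp_le_exp.2 (neg_le_neg ?_))
        (by norm_num))
      refine mul_le_mul_of_nonneg_left ?_ hσ0.le
      exact_mod_cast hij.le
    · ring

end

end Pool.Agent.Y944.AG
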